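import Pool.Agent.Helper35.HS3.GoalsD

/-!
# Project HS3, packet LING: solutions of polynomial growth have linear growth
-/

namespace Pool.Agent.Helper15.HS3.LING

open MeasureTheory Set Filter Topology Metric
open scoped ContDiff
open Pool.Agent.Helper35.HS3

theorem bw_nonneg (r : ℝ) (x : E) : 0 ≤ bw r x := le_max_left _ _

theorem bw_le (r : ℝ) (x : E) : bw r x ≤ r ^ 2 := by
  unfold bw
  refine max_le (sq_nonneg _) ?_
  nlinarith [sq_nonneg ‖x‖]

theorem bw_zero {r : ℝ} (hr : 0 ≤ r) {x : E} (hx : x ∉ ball (0 : E) r) : bw r x = 0 := by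
  have h1 : r ≤ ‖x‖ := by simpa using hx
  unfold bw
  refine max_eq_left ?_
  nlinarith [norm_nonneg x]

theorem continuous_bw (r : ℝ) : Continuous (bw r) := by
  unfold bw
  fun_prop

/-- The integrand of `HH` is zero off the ball. -/
theorem HH_eq (v : E → ℝ) (κ : ℝ) {r : ℝ} (hr : 0 ≤ r) :
    HH v κ r = ∫ x in ball (0 : E) r, (v x ^ 2 + κ * ‖x‖ ^ 2) * bw r x ^ 2 := by
  unfold HH
  refine (setIntegral_eq_integral_of_forall_compl_eq_zero fun x hx => ?_).symm
  rw [bw_zero hr hx]; ring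

theorem HH_le {v : E → ℝ} (hv : Continuous v) {κ r M : ℝ} (hr : 0 ≤ r) (hM0 : 0 ≤ M)
    (hM : ∀ x : E, ‖x‖ < r → v x ^ 2 + κ * ‖x‖ ^ 2 ≤ M) :
    HH v κ r ≤ M * r ^ 4 * (v1 * r ^ 3) := by
  rw [HH_eq v κ hr]
  have hc : Continuous fun x : E => (v x ^ 2 + κ * ‖x‖ ^ 2) * bw r x ^ 2 := by
    have := continuous_bw r
    fun_prop
  have h1 : ∫ x in ball (0 : E) r, (v x ^ 2 + κ * ‖x‖ ^ 2) * bw r x ^ 2
      ≤ ∫ _x in ball (0 : E) r, M * r ^ 4 := by
    refine setIntegral_mono_on (integrableOn_ball hc 0 r)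
      (integrableOn_ball continuous_const 0 r) measurableSet_ball fun x hx => ?_
    have hx' : ‖x‖ < r := by simpa using hx
    have h2 : bw r x ^ 2 ≤ r ^ 4 := by
      have e : r ^ 4 = (r ^ 2) ^ 2 := by ring
      rw [e]
      exact pow_le_pow_left₀ (bw_nonneg r x) (bw_le r x) 2
    have h3 := hM x hx'
    calc (v x ^ 2 + κ * ‖x‖ ^ 2) * bw r x ^ 2 ≤ M * bw r x ^ 2 :=
          mul_le_mul_of_nonneg_right h3 (sq_nonneg _)
      _ ≤ M * r ^ 4 := mul_le_mul_of_nonneg_left h2 hM0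
  refine h1.trans (le_of_eq ?_)
  rw [setIntegral_const, vol_ball 0 hr, smul_eq_mul]
  ring

theorem HH_ge {v : E → ℝ} (hv : Continuous v) {κ t : ℝ} (hκ : 0 ≤ κ) (ht : 0 < t) :
    49 * t ^ 4 * ∫ x in ball (0 : E) (3 * t), v x ^ 2 ≤ HH v κ (4 * t) := by
  rw [HH_eq v κ (by positivity : (0 : ℝ) ≤ 4 * t)]
  have hc : Continuous fun x : E => (v x ^ 2 + κ * ‖x‖ ^ 2) * bw (4 * t) x ^ 2 := by
    have := continuous_bw (4 * t)
    fun_prop
  have hc2 : Continuous fun x : E => 49 * t ^ 4 * v x ^ 2 := by fun_prop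
  have hn : ∀ x : E, 0 ≤ (v x ^ 2 + κ * ‖x‖ ^ 2) * bw (4 * t) x ^ 2 := fun x => by positivity
  rw [← integral_const_mul]
  have h1 : ∫ x in ball (0 : E) (3 * t), 49 * t ^ 4 * v x ^ 2
      ≤ ∫ x in ball (0 : E) (3 * t), (v x ^ 2 + κ * ‖x‖ ^ 2) * bw (4 * t) x ^ 2 := by
    refine setIntegral_mono_on (integrableOn_ball hc2 0 _)
      (integrableOn_ball hc 0 _) measurableSet_ball fun x hx => ?_
    have hx' : ‖x‖ < 3 * t := by simpa using hx
    have h2 : 7 * t ^ 2 ≤ bw (4 * t) x := by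
      unfold bw
      refine le_max_of_le_right ?_
      nlinarith [norm_nonneg x]
    have h3 : 49 * t ^ 4 ≤ bw (4 * t) x ^ 2 := by
      have e : 49 * t ^ 4 = (7 * t ^ 2) ^ 2 := by ring
      rw [e]
      exact pow_le_pow_left₀ (by positivity) h2 2
    have h4 : v x ^ 2 ≤ v x ^ 2 + κ * ‖x‖ ^ 2 := by
      have : 0 ≤ κ * ‖x‖ ^ 2 := by positivity
      linarith
    calc 49 * t ^ 4 * v x ^ 2 = v x ^ 2 * (49 * t ^ 4) := by ring
      _ ≤ (v x ^ 2 + κ * ‖x‖ ^ 2) * bw (4 * t) x ^ 2 :=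
          mul_le_mul h4 h3 (by positivity) (by positivity)
  refine h1.trans ?_
  refine setIntegral_mono_set (integrableOn_ball hc 0 _)
    (Eventually.of_forall hn) (Eventually.of_forall ?_)
  exact ball_subset_ball (by linarith)

theorem sh_neg {f : ℝ → ℝ} {a A K : ℝ} {u : E → ℝ} (hN : Nl f a A K) (hS : Sl f u) :
    SH (-1) (fun x => - u x) where
  sgn := Or.inr rfl
  smooth := hS.smooth.neg
  nonneg := fun x hx => by
    have := hS.neg x (by linarith)
    linarith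
  super := fun x _ => by
    rw [lap_neg, hS.eq]
    have := hN.nonneg (u x)
    linarith

/-- The first step: the mass of `|u|` in the ball of radius `t/2` about `- t e₀`. -/
theorem step1 (hLB : LB_stmt) {f : ℝ → ℝ} {a A K : ℝ} {u : E → ℝ} (hN : Nl f a A K)
    (hS : Sl f u) : ∃ C₃ : ℝ, 0 ≤ C₃ ∧ ∀ t : ℝ, 1 ≤ t →
      ∫ y in ball (-(t • bv 0) : E) (t / 2), |u y| ≤ C₃ * t ^ 4 := by
  obtain ⟨c, hc, h⟩ := hLB (1 / 4) (by norm_num) (by norm_num)
  have hM0 : 0 ≤ - u (-bv 0) := by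
    have : u (-bv 0) ≤ 0 := hS.neg _ (by simp)
    linarith
  refine ⟨16 * (- u (-bv 0)) / c, by positivity, fun t ht => ?_⟩
  have ht0 : 0 < t := by linarith
  have h1 := h (-1) (fun x => - u x) (2 * t) (-bv 0) (sh_neg hN hS) (by positivity)
    (by simp [Hs]) (by rw [norm_neg, norm_bv]; linarith)
  have e1 : (-1 : ℝ) * (-bv 0 : E) 0 = 1 := by simp
  rw [e1, mul_one] at h1
  set S : Set E := ball (0 : E) (2 * t) ∩ {y | 1 / 4 * (2 * t) ≤ -1 * y 0} with hSdef
  have hz0 : (-(t • bv 0) : E) 0 = -t := by simp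
  have hzn : ‖(-(t • bv 0) : E)‖ = t := by
    rw [norm_neg, norm_smul, norm_bv, Real.norm_eq_abs, abs_of_pos ht0, mul_one]
  have hsub : ball (-(t • bv 0) : E) (t / 2) ⊆ S := by
    intro y hy
    have hy' : ‖y - (-(t • bv 0) : E)‖ < t / 2 := by rwa [mem_ball, dist_eq_norm] at hy
    constructor
    · rw [mem_ball, dist_zero_right]
      calc ‖y‖ = ‖(y - (-(t • bv 0) : E)) + (-(t • bv 0) : E)‖ := by congr 1; abel
        _ ≤ ‖y - (-(t • bv 0) : E)‖ + ‖(-(t • bv 0) : E)‖ := norm_add_le _ _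
        _ < 2 * t := by rw [hzn]; linarith
    · have h2 := abs_coord_le (y - (-(t • bv 0) : E)) 0
      have e2 : (y - (-(t • bv 0) : E)) 0 = y 0 + t := by
        rw [PiLp.sub_apply, hz0]; ring
      rw [e2] at h2
      have h3 := (abs_le.1 (h2.trans hy'.le))
      simp only [mem_ofPred_eq]
      linarith [h3.2]
  have hneg : ∀ y ∈ S, 0 ≤ - u y := by
    intro y hy
    have : u y ≤ 0 := hS.neg y (by
      have h4 : 1 / 4 * (2 * t) ≤ -1 * y 0 := hy.2
      linarith)
    linarith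
  have hu : Continuous u := hS.smooth.continuous
  have hmS : MeasurableSet S := by
    refine measurableSet_ball.inter ?_
    have hcont : Continuous fun y : E => -1 * y 0 := by fun_prop
    exact measurableSet_le measurable_const hcont.measurable
  have hint : IntegrableOn (fun y => - u y) S :=
    (integrableOn_ball hu.neg 0 (2 * t)).mono_set inter_subset_left
  have h5 : ∫ y in ball (-(t • bv 0) : E) (t / 2), |u y| ≤ ∫ y in S, - u y := by
    have e3 : ∫ y in ball (-(t • bv 0) : E) (t / 2), |u y|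
        = ∫ y in ball (-(t • bv 0) : E) (t / 2), - u y := by
      refine setIntegral_congr_fun measurableSet_ball fun y hy => ?_
      have := hneg y (hsub hy)
      exact abs_of_nonpos (by linarith)
    rw [e3]
    refine setIntegral_mono_set hint ?_ (Eventually.of_forall hsub)
    exact (ae_restrict_iff' hmS).2 (Eventually.of_forall hneg)
  refine h5.trans ?_
  rw [div_mul_eq_mul_div, le_div_iff₀ hc]
  calc (∫ y in S, - u y) * c = c * ∫ y in S, - u y := by ring
    _ ≤ (2 * t) ^ 4 * - u (-bv 0) := h1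
    _ = 16 * -u (-bv 0) * t ^ 4 := by ring

theorem proof : LB_stmt → SUPB_stmt → DOUB_stmt → LING_stmt := by
  intro hLB hSUPB hDOUB f a A K u k hN hS hgr
  obtain ⟨C, hC, hgr⟩ := hgr
  obtain ⟨C₃, hC₃, hs1⟩ := step1 hLB hN hS
  obtain ⟨κ, hκ, C₂, hC₂, hD⟩ := hDOUB f a A K u C k hN hS.smooth hS.eq hgr
  have hk := k0_pos
  have hv1 := v1_pos
  have hu : Continuous u := hS.smooth.continuous
  have hA := hN.A_pos
  obtain ⟨C₅, hC₅⟩ : ∃ C₅, C₅ = A + 1 + 64 * C₃ / k0 := ⟨_, rfl⟩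
  have hC₅0 : 0 < C₅ := by rw [hC₅]; positivity
  obtain ⟨C₇, hC₇⟩ : ∃ C₇, C₇ = C₂ * ((C₅ ^ 2 + κ) * v1) / 49 := ⟨_, rfl⟩
  have hC₇0 : 0 < C₇ := by rw [hC₇]; positivity
  obtain ⟨C₈, hC₈⟩ : ∃ C₈, C₈ = (27 * v1 + C₇) / 2 := ⟨_, rfl⟩
  have hC₈0 : 0 < C₈ := by rw [hC₈]; positivity
  obtain ⟨C₉, hC₉⟩ : ∃ C₉, C₉ = A + 1 + C₈ / k0 := ⟨_, rfl⟩
  have hC₉0 : 0 < C₉ := by rw [hC₉]; positivity
  have key : ∀ t : ℝ, 1 ≤ t → ∀ x : E, ‖x - (-(t • bv 0) : E)‖ < 3 * t / 2 → |u x| ≤ C₉ * t := by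
    intro t ht
    have ht0 : 0 < t := by linarith
    set z : E := -(t • bv 0) with hz
    have b1 : ∀ x : E, ‖x - z‖ < t / 4 → |u x| ≤ C₅ * t := by
      intro x hx
      have h1 := hSUPB f a A K u hN hS.smooth hS.eq z x (t / 4) (by positivity) hx
      have e1 : 2 * (t / 4) = t / 2 := by ring
      rw [e1] at h1
      have h2 := h1.trans (hs1 t ht)
      have h3 : k0 * (|u x| - A - 1) ≤ 64 * C₃ * t := by
        have h4 : k0 * (|u x| - A - 1) * t ^ 3 ≤ 64 * C₃ * t * t ^ 3 := by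
          have e2 : k0 * (|u x| - A - 1) * (t / 4) ^ 3 =
              k0 * (|u x| - A - 1) * t ^ 3 / 64 := by ring
          rw [e2] at h2
          have e3 : 64 * C₃ * t * t ^ 3 = 64 * (C₃ * t ^ 4) := by ring
          rw [e3]
          linarith
        exact le_of_mul_le_mul_right h4 (by positivity)
      have h5 : |u x| - A - 1 ≤ 64 * C₃ / k0 * t := by
        rw [div_mul_eq_mul_div, le_div_iff₀ hk]
        linarith [h3]
      have h6 : A + 1 ≤ (A + 1) * t := by nlinarith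
      rw [hC₅]
      linarith
    have hvc : Continuous fun x => u (z + x) := by fun_prop
    have b2 : HH (fun x => u (z + x)) κ (t / 4) ≤ (C₅ ^ 2 + κ) * v1 * t ^ 9 := by
      have h1 := HH_le (v := fun x => u (z + x)) hvc (κ := κ) (r := t / 4)
        (M := (C₅ ^ 2 + κ) * t ^ 2) (by positivity) (by positivity) (fun x hx => by
          have h2 := b1 (z + x) (by simpa using hx)
          have h3 : u (z + x) ^ 2 ≤ (C₅ * t) ^ 2 := by
            rw [← sq_abs]
            exact pow_le_pow_left₀ (abs_nonneg _) h2 2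
          have h4 : ‖x‖ ^ 2 ≤ t ^ 2 := pow_le_pow_left₀ (norm_nonneg _) (by linarith) 2
          have h5 : κ * ‖x‖ ^ 2 ≤ κ * t ^ 2 := mul_le_mul_of_nonneg_left h4 hκ.le
          calc u (z + x) ^ 2 + κ * ‖x‖ ^ 2 ≤ (C₅ * t) ^ 2 + κ * t ^ 2 := add_le_add h3 h5
            _ = (C₅ ^ 2 + κ) * t ^ 2 := by ring)
      refine h1.trans ?_
      have e : (C₅ ^ 2 + κ) * t ^ 2 * (t / 4) ^ 4 * (v1 * (t / 4) ^ 3)
          = (C₅ ^ 2 + κ) * v1 * t ^ 9 * (1 / 4) ^ 7 := by ring
      rw [e]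
      have h7 : 0 ≤ (C₅ ^ 2 + κ) * v1 * t ^ 9 := by positivity
      have h8 : ((1 : ℝ) / 4) ^ 7 ≤ 1 := by norm_num
      exact mul_le_of_le_one_right h7 h8
    have b3 : HH (fun x => u (z + x)) κ (4 * t) ≤ C₂ * ((C₅ ^ 2 + κ) * v1 * t ^ 9) := by
      have h1 := hD z (t / 4) (by positivity)
      have e : 16 * (t / 4) = 4 * t := by ring
      rw [e] at h1
      exact h1.trans (mul_le_mul_of_nonneg_left b2 hC₂.le)
    have b4 : ∫ x in ball (0 : E) (3 * t), u (z + x) ^ 2 ≤ C₇ * t ^ 5 := by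
      have h1 := (HH_ge (v := fun x => u (z + x)) hvc hκ.le ht0).trans b3
      have h2 : (∫ x in ball (0 : E) (3 * t), u (z + x) ^ 2) * (49 * t ^ 4)
          ≤ C₇ * t ^ 5 * (49 * t ^ 4) := by
        have e : C₇ * t ^ 5 * (49 * t ^ 4) = C₂ * ((C₅ ^ 2 + κ) * v1 * t ^ 9) := by
          rw [hC₇]; ring
        rw [e]
        linarith
      exact le_of_mul_le_mul_right h2 (by positivity)
    have b5 : ∫ y in ball z (3 * t), |u y| ≤ C₈ * t ^ 4 := by
      have e1 := integral_ball_scale (fun y => |u y|) z one_pos (3 * t)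
      simp only [one_smul, one_pow, inv_one, one_mul] at e1
      rw [← e1]
      have hc1 : Continuous fun x : E => |u (z + x)| := by fun_prop
      have hc2 : Continuous fun x : E => (t + (1 / t) * u (z + x) ^ 2) / 2 := by fun_prop
      have h1 : ∫ x in ball (0 : E) (3 * t), |u (z + x)| ≤
          ∫ x in ball (0 : E) (3 * t), (t + (1 / t) * u (z + x) ^ 2) / 2 := by
        refine setIntegral_mono_on (integrableOn_ball hc1 0 _)
          (integrableOn_ball hc2 0 _) measurableSet_ball fun x _ => ?_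
        have h3 : 0 ≤ (t - |u (z + x)|) ^ 2 := sq_nonneg _
        have h4 : |u (z + x)| ^ 2 = u (z + x) ^ 2 := sq_abs _
        have h5 : 2 * t * |u (z + x)| ≤ t ^ 2 + u (z + x) ^ 2 := by nlinarith
        have h6 : (t + (1 / t) * u (z + x) ^ 2) / 2 = (t ^ 2 + u (z + x) ^ 2) / (2 * t) := by
          field_simp
        rw [h6, le_div_iff₀ (by positivity)]
        linarith
      refine h1.trans ?_
      have hc3 : Continuous fun x : E => (1 / t) * u (z + x) ^ 2 := by fun_prop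
      rw [integral_div, integral_add (integrableOn_ball continuous_const 0 _)
        (integrableOn_ball hc3 0 _), setIntegral_const, vol_ball 0 (by positivity),
        integral_const_mul, smul_eq_mul]
      have h7 : (1 / t) * ∫ x in ball (0 : E) (3 * t), u (z + x) ^ 2 ≤ (1 / t) * (C₇ * t ^ 5) :=
        mul_le_mul_of_nonneg_left b4 (by positivity)
      have h8 : (1 / t) * (C₇ * t ^ 5) = C₇ * t ^ 4 := by
        field_simp
      rw [hC₈]
      have e9 : v1 * (3 * t) ^ 3 * t = 27 * v1 * t ^ 4 := by ring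
      rw [e9]
      linarith
    intro x hx
    have h1 := hSUPB f a A K u hN hS.smooth hS.eq z x (3 * t / 2) (by positivity) hx
    have e1 : 2 * (3 * t / 2) = 3 * t := by ring
    rw [e1] at h1
    have h2 := h1.trans b5
    have h3 : |u x| - A - 1 ≤ C₈ / k0 * t := by
      by_cases hneg : |u x| - A - 1 ≤ 0
      · exact hneg.trans (by positivity)
      · push Not at hneg
        have h4 : k0 * (|u x| - A - 1) * t ^ 3 ≤ C₈ * t * t ^ 3 := by
          have h5 : k0 * (|u x| - A - 1) * t ^ 3 ≤ k0 * (|u x| - A - 1) * (3 * t / 2) ^ 3 := by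
            refine mul_le_mul_of_nonneg_left ?_ (by positivity)
            exact pow_le_pow_left₀ ht0.le (by linarith) 3
          have e2 : C₈ * t * t ^ 3 = C₈ * t ^ 4 := by ring
          rw [e2]
          exact h5.trans h2
        have h6 := le_of_mul_le_mul_right h4 (by positivity)
        rw [div_mul_eq_mul_div, le_div_iff₀ hk]
        linarith
    have h6 : A + 1 ≤ (A + 1) * t := by nlinarith
    rw [hC₉]
    linarith
  refine ⟨2 * C₉, by positivity, fun x => ?_⟩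
  have hn := norm_nonneg x
  have ht : 1 ≤ 2 * ‖x‖ + 1 := by linarith
  have h1 := key (2 * ‖x‖ + 1) ht x (by
    have h2 : ‖x - (-((2 * ‖x‖ + 1) • bv 0) : E)‖ ≤ ‖x‖ + (2 * ‖x‖ + 1) := by
      refine (norm_sub_le _ _).trans ?_
      rw [norm_neg, norm_smul, norm_bv, Real.norm_eq_abs, abs_of_pos (by linarith), mul_one]
    linarith)
  refine h1.trans ?_
  nlinarith

end Pool.Agent.Helper15.HS3.LING
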